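import Pool.Agent.Y304.EB.Scale

/-!
Norm inflation and ill-posedness along a half-line of data (helper304).
-/

set_option autoImplicit false

open Set Filter Topology MeasureTheory Real
open scoped ContDiff ENNReal RealInnerProductSpace

namespace Pool.Agent.Y304.EB

open Pool.Agent.Helper865.EulerBesov

/-- Local well-posedness at the datum `u₀` in a weak sense: data close to `u₀` in `B¹_{∞,q₀}` have
a unique solution in `C([0,T]; B¹_{∞,q₁})`, and the solution map is continuous at `u₀` from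
`B¹_{∞,q₀}` to `C([0,T]; B¹_{∞,q₁})`. -/
def WellPosedAt {n : ℕ} (χ : E n → ℝ) (q₀ q₁ : ℝ) (u₀ : E n → E n) : Prop :=
  ∃ T : ℝ, 0 < T ∧ ∃ δ : ℝ≥0∞, 0 < δ ∧ ∃ S : (E n → E n) → ℝ → E n → E n,
    (∀ v₀, MemBesov χ q₀ v₀ → DivFree v₀ → besovNorm χ q₀ (v₀ - u₀) < δ →
      IsSolution χ q₁ T v₀ (S v₀) ∧
        ∀ v, IsSolution χ q₁ T v₀ v → ∀ t ∈ Icc 0 T, v t = S v₀ t) ∧
    ∀ ε : ℝ≥0∞, 0 < ε → ∃ δ' : ℝ≥0∞, 0 < δ' ∧
      ∀ v₀, MemBesov χ q₀ v₀ → DivFree v₀ → besovNorm χ q₀ (v₀ - u₀) < δ' →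
        ∀ t ∈ Icc 0 T, besovNorm χ q₁ (S v₀ t - S u₀ t) ≤ ε

variable {d : ℕ} {χ : E (d + 2) → ℝ}

/-- norm inflation at the positive multiples of the limit datum -/
theorem infl_pos (hχ : IsCutoff χ) {q₀ q₁ : ℝ} (hq₀ : 1 < q₀) (hq₁ : 0 < q₁) {a : ℝ} (ha : 0 < a)
    (F : Finset ℝ) (hF : ∀ t ∈ F, 0 < t) {δ R : ℝ≥0∞} (hδ : 0 < δ) (hR : R < ⊤) :
    ∃ v₀ : E (d + 2) → E (d + 2), ContDiff ℝ ∞ v₀ ∧ IsPer v₀ ∧
      (∀ q : ℝ, 1 < q → MemBesov χ q v₀) ∧ DivFree v₀ ∧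
      besovNorm χ q₀ (v₀ - a • UInf d) < δ ∧
      ∀ t ∈ F, ∀ r : ℝ, 0 < r → ∀ u, IsSolution χ r t v₀ u →
        ((∀ s ∈ Icc 0 t, IsPer (u s)) ∨
          ∀ v, IsSolution χ r t v₀ v → ∀ s ∈ Icc 0 t, v s = u s) →
        R < besovNorm χ q₁ (u t) := by
  classical
  have hq0 : 0 < q₀ := by linarith
  have hae : ‖a‖ₑ ≠ 0 := by
    rw [enorm_ne_zero]
    exact ha.ne'
  have hae' : ‖a‖ₑ ≠ ⊤ := enorm_ne_top
  obtain ⟨v₁, h1, h2, h3, h4, h5, h6⟩ := infl (d := d) hχ hq₀ hq₁ (F.image (fun t => a * t))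
    (by
      intro t ht
      obtain ⟨s, hs, rfl⟩ := Finset.mem_image.1 ht
      exact mul_pos ha (hF s hs))
    (δ := δ / ‖a‖ₑ) (R := R / ‖a‖ₑ) (ENNReal.div_pos hδ.ne' hae')
    (ENNReal.div_lt_top hR.ne hae)
  refine ⟨a • v₁, h1.const_smul a, isPer_smul h2 a, fun q hq => memBesov_smul (by linarith)
    (h3 q hq) a, divFree_smul h4 a, ?_, ?_⟩
  · rw [← smul_sub, besovNorm_smul hq0, mul_comm]
    exact (ENNReal.lt_div_iff_mul_lt (Or.inl hae) (Or.inl hae')).1 h5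
  · intro t ht r hr u hu hor
    have hper : ∀ s ∈ Icc 0 t, IsPer (u s) := by
      rcases hor with h | h
      · exact h
      · exact isPer_of_unique hu h (isPer_smul h2 a)
    have hai : 0 < a⁻¹ := inv_pos.2 ha
    have hw := sol_scale hr hai hu
    rw [smul_smul, inv_mul_cancel₀ ha.ne', one_smul, div_inv_eq_mul, mul_comm t a] at hw
    have h7 := h6 (a * t) (Finset.mem_image.2 ⟨t, ht, rfl⟩) r hr _ hw (by
      intro s hs
      refine isPer_smul (hper (a⁻¹ * s) ⟨mul_nonneg hai.le hs.1, ?_⟩) _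
      rw [inv_mul_le_iff₀ ha]
      exact hs.2)
    have e : a⁻¹ * (a * t) = t := by field_simp
    simp only [e] at h7
    rw [besovNorm_smul hq₁, enorm_inv ha.ne', mul_comm, ← div_eq_mul_inv] at h7
    by_contra hcon
    push Not at hcon
    exact absurd h7 (not_lt.2 (ENNReal.div_le_div_right hcon _))

/-- norm inflation at all nonnegative multiples of the limit datum -/
theorem infl_all (hχ : IsCutoff χ) {q₀ q₁ : ℝ} (hq₀ : 1 < q₀) (hq₁ : 0 < q₁) {a : ℝ} (ha : 0 ≤ a)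
    (F : Finset ℝ) (hF : ∀ t ∈ F, 0 < t) {δ R : ℝ≥0∞} (hδ : 0 < δ) (hR : R < ⊤) :
    ∃ v₀ : E (d + 2) → E (d + 2), ContDiff ℝ ∞ v₀ ∧ IsPer v₀ ∧
      (∀ q : ℝ, 1 < q → MemBesov χ q v₀) ∧ DivFree v₀ ∧
      besovNorm χ q₀ (v₀ - a • UInf d) < δ ∧
      ∀ t ∈ F, ∀ r : ℝ, 0 < r → ∀ u, IsSolution χ r t v₀ u →
        ((∀ s ∈ Icc 0 t, IsPer (u s)) ∨
          ∀ v, IsSolution χ r t v₀ v → ∀ s ∈ Icc 0 t, v s = u s) →
        R < besovNorm χ q₁ (u t) := by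
  rcases ha.lt_or_eq with h | h
  · exact infl_pos hχ hq₀ hq₁ h F hF hδ hR
  subst h
  have hq0 : 0 < q₀ := by linarith
  have hU := memBesov_UInf (d := d) hχ hq₀
  obtain ⟨N, hN⟩ : ∃ N : ℝ≥0∞, N = besovNorm χ q₀ (UInf d) := ⟨_, rfl⟩
  have hNt : N ≠ ⊤ := by rw [hN]; exact hU.norm_lt_top.ne
  -- half of the smallness
  obtain ⟨b, hb0, hbt, hb⟩ : ∃ b : ℝ≥0∞, 0 < b ∧ b ≠ ⊤ ∧
      (2 : ℝ≥0∞) ^ (q₀ - 1) * (b ^ q₀ + b ^ q₀) ≤ δ ^ q₀ := by
    obtain ⟨δ', hδ'0, hδ't, hδ'⟩ : ∃ δ' : ℝ≥0∞, 0 < δ' ∧ δ' ≠ ⊤ ∧ δ' ≤ δ :=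
      ⟨min δ 1, lt_min hδ one_pos, (min_lt_of_right_lt ENNReal.one_lt_top).ne, min_le_left _ _⟩
    refine ⟨δ' / 2, ENNReal.div_pos hδ'0.ne' (by norm_num), (ENNReal.div_lt_top hδ't (by norm_num)).ne,
      ?_⟩
    have h2 : (2 : ℝ≥0∞) ^ (q₀ - 1) * 2 = 2 ^ q₀ := by
      nth_rewrite 2 [← ENNReal.rpow_one 2]
      rw [← ENNReal.rpow_add _ _ (by norm_num) (by norm_num)]
      congr 1
      ring
    rw [← two_mul, ← mul_assoc, h2, ← ENNReal.mul_rpow_of_nonneg _ _ hq0.le,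
      ENNReal.mul_div_cancel (by norm_num) (by norm_num)]
    exact ENNReal.rpow_le_rpow hδ' hq0.le
  obtain ⟨μ, hμ0, hμ⟩ : ∃ μ : ℝ, 0 < μ ∧ ‖μ‖ₑ * N < b := by
    have h1 : Tendsto (fun μ : ℝ => ENNReal.ofReal μ * N) (𝓝[>] 0) (𝓝 0) := by
      have h2 : Tendsto (fun μ : ℝ => ENNReal.ofReal μ) (𝓝[>] 0) (𝓝 0) := by
        have := (ENNReal.continuous_ofReal.tendsto 0)
        rw [ENNReal.ofReal_zero] at this
        exact this.mono_left nhdsWithin_le_nhds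
      have h3 := ENNReal.Tendsto.mul_const h2 (b := N) (Or.inr hNt)
      rwa [zero_mul] at h3
    obtain ⟨μ, h3, h4⟩ := ((h1.eventually (gt_mem_nhds hb0)).and self_mem_nhdsWithin).exists
    refine ⟨μ, h4, ?_⟩
    rw [Real.enorm_of_nonneg (le_of_lt h4)]
    exact h3
  obtain ⟨v₀, h1, h2, h3, h4, h5, h6⟩ := infl_pos (d := d) hχ hq₀ hq₁ hμ0 F hF hb0 hR
  refine ⟨v₀, h1, h2, h3, h4, ?_, h6⟩
  rw [zero_smul, sub_zero]
  obtain ⟨A₁, hA₁⟩ := (h3 q₀ hq₀).bounded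
  have hm := memBesov_smul hq0 hU μ
  obtain ⟨A₂, hA₂⟩ := hm.bounded
  have h7 := besovNorm_add_rpow hχ hq₀.le ((h3 q₀ hq₀).continuous.sub hm.continuous)
    hm.continuous (A := A₁ + A₂)
    (fun x => (norm_sub_le _ _).trans (add_le_add (hA₁ x) (hA₂ x))) hA₂
  have h8 : (v₀ - μ • UInf d) + μ • UInf d = v₀ := sub_add_cancel _ _
  rw [h8] at h7
  have h10 : besovNorm χ q₀ (μ • UInf d) < b := by
    rw [besovNorm_smul hq0, ← hN]
    exact hμ
  rw [← ENNReal.rpow_lt_rpow_iff hq0]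
  refine lt_of_le_of_lt h7 (lt_of_lt_of_le ?_ hb)
  rw [ENNReal.mul_lt_mul_iff_right]
  · exact ENNReal.add_lt_add (ENNReal.rpow_lt_rpow h5 hq0) (ENNReal.rpow_lt_rpow h10 hq0)
  · exact (ENNReal.rpow_pos (by norm_num) (by norm_num)).ne'
  · exact (ENNReal.rpow_lt_top_of_nonneg (by linarith) (by norm_num)).ne

/-- ill-posedness at all nonnegative multiples of the limit datum -/
theorem not_wp (hχ : IsCutoff χ) {q₀ q₁ : ℝ} (hq₀ : 1 < q₀) (hq₁ : 1 ≤ q₁) {a : ℝ} (ha : 0 ≤ a) :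
    ¬ WellPosedAt χ q₀ q₁ (a • UInf d) := by
  rintro ⟨T, hT, δ, hδ, S, hS, hcont⟩
  obtain ⟨δ', hδ', hc⟩ := hcont 1 one_pos
  have hq0 : 0 < q₀ := by linarith
  have hq1 : 0 < q₁ := by linarith
  have hTm : T ∈ Icc 0 T := ⟨hT.le, le_rfl⟩
  have hself : besovNorm χ q₀ (a • UInf d - a • UInf d) < δ := by
    rw [besovNorm_self hq0]
    exact hδ
  have hU := (hS _ (memBesov_smul hq0 (memBesov_UInf hχ hq₀) a) (divFree_smul divFree_UInf a)
    hself).1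
  have hmemU := hU.mem T hTm
  set B : ℝ≥0∞ := (2 : ℝ≥0∞) ^ (q₁ - 1) * (1 ^ q₁ + besovNorm χ q₁ (S (a • UInf d) T) ^ q₁) with hB
  have hBtop : B < ⊤ := by
    apply ENNReal.mul_lt_top
    · exact ENNReal.rpow_lt_top_of_nonneg (by linarith) (by norm_num)
    · refine ENNReal.add_lt_top.2 ⟨by simp, ?_⟩
      exact ENNReal.rpow_lt_top_of_nonneg hq1.le hmemU.norm_lt_top.ne
  obtain ⟨v₀, _, _, hm, hd, hclose, hbig⟩ := infl_all (δ := min δ δ') hχ hq₀ hq1 ha {T}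
    (by simpa using hT) (lt_min hδ hδ') (R := B ^ (1 / q₁))
    (ENNReal.rpow_lt_top_of_nonneg (by positivity) hBtop.ne)
  have hv := hS v₀ (hm q₀ hq₀) hd (hclose.trans_le (min_le_left _ _))
  have hbig' := hbig T (by simp) q₁ hq1 _ hv.1 (Or.inr hv.2)
  have hmemv := hv.1.mem T hTm
  have h1 := hc v₀ (hm q₀ hq₀) hd (hclose.trans_le (min_le_right _ _)) T hTm
  obtain ⟨A₁, hA₁⟩ := hmemv.bounded
  obtain ⟨A₂, hA₂⟩ := hmemU.bounded
  have h2 := besovNorm_add_rpow hχ hq₁ (hmemv.continuous.sub hmemU.continuous)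
    hmemU.continuous (A := A₁ + A₂)
    (fun x => (norm_sub_le _ _).trans (add_le_add (hA₁ x) (hA₂ x))) hA₂
  have h3 : S v₀ T - S (a • UInf d) T + S (a • UInf d) T = S v₀ T := sub_add_cancel _ _
  rw [h3] at h2
  have h4 : besovNorm χ q₁ (S v₀ T) ^ q₁ ≤ B := by
    refine h2.trans ?_
    rw [hB]
    gcongr
  exact absurd (besovNorm_le_of_rpow_le hq1 h4) (not_le.2 hbig')

/-- the multiples of the limit datum are steady solutions -/
lemma sol_multiple (hχ : IsCutoff χ) {q : ℝ} (hq : 1 < q) {a : ℝ} (ha : 0 ≤ a) (T : ℝ) :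
    IsSolution χ q T (a • UInf d) (fun _ => a • UInf d) := by
  rcases ha.lt_or_eq with h | h
  · have h1 := sol_scale (a := a) (by linarith : 0 < q) h
      (isSolution_UInf (d := d) hχ hq (T * a))
    rwa [mul_div_cancel_right₀ _ h.ne'] at h1
  · subst h
    have hz : (0 : ℝ) • UInf d = (0 : E (d + 2) → E (d + 2)) := zero_smul _ _
    rw [hz]
    refine ⟨rfl, fun _ _ => ?_, fun t _ => ?_, fun _ _ => ?_, ⟨fun _ _ => 0, continuousOn_const,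
      fun ε hε => ⟨0, fun t _ x _ => by rw [abs_zero]; positivity⟩, ?_⟩⟩
    · rw [← hz]
      exact memBesov_smul (by linarith) (memBesov_UInf hχ hq) 0
    · simp only [besovNorm_self (by linarith : 0 < q)]
      exact tendsto_const_nhds
    · rw [← hz]
      exact divFree_smul divFree_UInf 0
    · intro t _ φ _ _
      simp

lemma isPer_UInf : IsPer (UInf d) := by
  have h0 : IsPer (fun x : E (d + 2) => fInf (x 1)) :=
    isPer_two (F := fun _ Y => fInf Y) (fun _ _ => rfl) (fun _ Y => by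
      unfold fInf
      simp_rw [sin_two_pow_per])
  intro x i
  have h1 := h0 x i
  simp only at h1
  unfold UInf
  rw [h1]

lemma UInf_ne : UInf d ≠ 0 := by
  intro h
  have h1 := congrFun (congrFun (congrArg (fun f => fun x => (f x).ofLp) h)
    (EuclideanSpace.single 1 (π / 2))) 0
  have h2 : fInf (π / 2) = af 0 := by
    unfold fInf
    rw [tsum_eq_single 0]
    · simp
    · intro i hi
      obtain ⟨k, rfl⟩ := Nat.exists_eq_succ_of_ne_zero hi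
      have h3 : (2 : ℝ) ^ (k + 1) * (π / 2) = ((2 ^ k : ℕ) : ℝ) * π := by
        push_cast
        ring
      rw [Nat.succ_eq_add_one, h3, sin_nat_mul_pi, mul_zero]
  have h4 : (UInf d (EuclideanSpace.single 1 (π / 2))) 0 = fInf (π / 2) := by
    simp [UInf]
  have h5 : (UInf d (EuclideanSpace.single 1 (π / 2))) 0 = 0 := h1
  rw [h4, h2] at h5
  have h6 : (0 : ℝ) < af 0 := by
    unfold af cf
    norm_num
  linarith

end Pool.Agent.Y304.EB
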