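import Pool.Agent.Helper865.EulerBesov.Sanity

/-!
Norm inflation for the Euler equations from `B¹_{∞,q₀}` to `B¹_{∞,q₁}` (helper304).
-/

set_option autoImplicit false

open Set Filter Topology MeasureTheory Real
open scoped ContDiff ENNReal RealInnerProductSpace

namespace Pool.Agent.Y304.EB

open Pool.Agent.Helper865.EulerBesov

variable {d : ℕ} {χ : E (d + 2) → ℝ}

/-- comparison estimate for solutions with the model data, uniform in the solution class -/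
lemma rem_est (hχ : IsCutoff χ) (J : ℕ) (ε : ℝ) {T : ℝ} (hT : 0 < T) :
    ∃ C : ℝ, 0 ≤ C ∧ ∀ (m : ℕ) (r : ℝ), 0 < r → ∀ u : ℝ → E (d + 2) → E (d + 2),
      IsSolution χ r T (VJ d J ε m) u → (∀ t ∈ Icc 0 T, IsPer (u t)) →
      (∫ x in Q (d + 2), rem (fN J) (rho (gN J) ε T) T ((2 ^ m : ℕ) : ℝ) (u T) x ^ 2) ≤
        C * (((2 ^ m : ℕ) : ℝ)⁻¹) ^ 4 := by
  obtain ⟨C, hC0, hC⟩ := (prof_fN J).compare (d := d) ε hT.le
  refine ⟨C, hC0, fun m r hr u hu hper => ?_⟩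
  obtain ⟨A, CH, p, hA, hCH, hsol⟩ := hu.exists_HSol hχ hr hT hper
  have h0 : (projIcc 0 T hT.le (0:ℝ) : ℝ) = 0 := by rw [projIcc_left]
  have h1 : (projIcc 0 T hT.le T : ℝ) = T := by rw [projIcc_right]
  have hinit : u (projIcc 0 T hT.le (0:ℝ)) = VJ d J ε m := by rw [h0]; exact hu.initial
  have h2 := hC (2 ^ m) Nat.one_le_two_pow A CH hA hCH _ p hsol
    (fun x => by simp only [hinit]; exact VJ_zero J ε m x)
    (fun x => by simp only [hinit]; exact VJ_one J ε m x)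
    (fun x i => by simp only [hinit]; exact VJ_ss J ε m x i)
  simp only [h1] at h2
  exact h2

/-- for large frequencies all periodic solutions are large at a given time -/
lemma ev_large (hχ : IsCutoff χ) {q₁ : ℝ} (hq₁ : 0 < q₁) {t ε : ℝ} (ht : 0 < t) (hε : 0 < ε)
    (J M : ℕ) (hy : ∀ i < M, ∃ y, t * gN J y = 64 ^ (i + 1)) :
    ∀ᶠ m : ℕ in atTop, ∀ r : ℝ, 0 < r → ∀ u : ℝ → E (d + 2) → E (d + 2),
      IsSolution χ r t (VJ d J ε m) u → (∀ s ∈ Icc 0 t, IsPer (u s)) →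
      (M : ℝ≥0∞) * ENNReal.ofReal (ε / 1000) ^ q₁ ≤ besovNorm χ q₁ (u t) ^ q₁ := by
  obtain ⟨C, hC0, hC⟩ := rem_est (d := d) hχ J ε ht
  have hprof := prof_fN J
  obtain ⟨P, hP⟩ : ∃ P : ℕ → Prop, P = fun m => ∃ r : ℝ, 0 < r ∧
      ∃ u : ℝ → E (d + 2) → E (d + 2), IsSolution χ r t (VJ d J ε m) u ∧
        (∀ s ∈ Icc 0 t, IsPer (u s)) ∧
        besovNorm χ q₁ (u t) ^ q₁ < (M : ℝ≥0∞) * ENNReal.ofReal (ε / 1000) ^ q₁ := ⟨_, rfl⟩
  have hex : ∀ m : ℕ, ∃ w : E (d + 2) → E (d + 2), Continuous w ∧ IsPer w ∧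
      (∫ x in Q (d + 2), rem (fN J) (rho (gN J) ε t) t ((2 ^ m : ℕ) : ℝ) w x ^ 2) ≤
        C * (((2 ^ m : ℕ) : ℝ)⁻¹) ^ 4 ∧
      (P m → besovNorm χ q₁ w ^ q₁ < (M : ℝ≥0∞) * ENNReal.ofReal (ε / 1000) ^ q₁) := by
    intro m
    by_cases hPm : P m
    · rw [hP] at hPm
      obtain ⟨r, hr, u, hu, hper, hb⟩ := hPm
      exact ⟨u t, (hu.mem t ⟨ht.le, le_rfl⟩).continuous, hper t ⟨ht.le, le_rfl⟩,
        hC m r hr u hu hper, fun _ => hb⟩
    · have cf := hprof.cf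
      have cg := hprof.cg
      have crho : Continuous (rho (gN J) ε t) := by
        unfold rho
        have h6 : Continuous (fun y => In (gN J) t y) :=
          (In_continuous cg).comp (by fun_prop : Continuous fun y : ℝ => (t, y))
        exact ((continuous_const.mul h6).mul continuous_const).mul cg
      obtain ⟨w, hw⟩ : ∃ w : E (d + 2) → E (d + 2), w = fun x =>
          (fN J (x 1) + (((2 ^ m : ℕ) : ℝ))⁻¹ * rho (gN J) ε t (x 1) *
            sin (((2 ^ m : ℕ) : ℝ) * (x 0 - t * fN J (x 1)))) •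
            EuclideanSpace.single 0 (1 : ℝ) := ⟨_, rfl⟩
      refine ⟨w, ?_, ?_, ?_, fun h => absurd h hPm⟩
      · rw [hw]
        fun_prop
      · have h0 : IsPer (fun x : E (d + 2) =>
            fN J (x 1) + (((2 ^ m : ℕ) : ℝ))⁻¹ * rho (gN J) ε t (x 1) *
            sin (((2 ^ m : ℕ) : ℝ) * (x 0 - t * fN J (x 1)))) := by
          refine isPer_two (F := fun X Y => fN J Y + (((2 ^ m : ℕ) : ℝ))⁻¹ * rho (gN J) ε t Y *
            sin (((2 ^ m : ℕ) : ℝ) * (X - t * fN J Y))) ?_ ?_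
          · intro X Y
            have e : sin (((2 ^ m : ℕ) : ℝ) * (X + 2 * π - t * fN J Y))
                = sin (((2 ^ m : ℕ) : ℝ) * (X - t * fN J Y)) := sin_shift (2 ^ m) X (t * fN J Y)
            simp only [e]
          · intro X Y
            have e1 := hprof.per Y
            have e2 : rho (gN J) ε t (Y + 2 * π) = rho (gN J) ε t Y := by
              unfold rho
              rw [hprof.perI, hprof.perg]
            simp only [e1, e2]
        intro x i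
        rw [hw]
        have h1 := h0 x i
        simp only at h1
        simp only [h1]
      · have hz : ∀ x, rem (fN J) (rho (gN J) ε t) t ((2 ^ m : ℕ) : ℝ) w x = 0 := by
          intro x
          unfold rem ph
          rw [hw]
          simp
        simp only [hz]
        simp
        positivity
  choose v hv1 hv2 hv3 hv4 using hex
  have hlow := besov_lower hχ hq₁ hprof (T := t) hε hC0 hv1 hv2 hv3 M hy
  filter_upwards [hlow] with m hm r hr u hu hper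
  by_contra hcon
  push Not at hcon
  have hPm : P m := by
    rw [hP]
    exact ⟨r, hr, u, hu, hper, hcon⟩
  exact absurd hm (not_le.2 (hv4 m hPm))

/-- norm inflation at the limit datum, for several times at once -/
theorem infl (hχ : IsCutoff χ) {q₀ q₁ : ℝ} (hq₀ : 1 < q₀) (hq₁ : 0 < q₁) (F : Finset ℝ)
    (hF : ∀ t ∈ F, 0 < t) {δ R : ℝ≥0∞} (hδ : 0 < δ) (hR : R < ⊤) :
    ∃ v₀ : E (d + 2) → E (d + 2), ContDiff ℝ ∞ v₀ ∧ IsPer v₀ ∧
      (∀ q : ℝ, 1 < q → MemBesov χ q v₀) ∧ DivFree v₀ ∧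
      besovNorm χ q₀ (v₀ - UInf d) < δ ∧
      ∀ t ∈ F, ∀ r : ℝ, 0 < r → ∀ u, IsSolution χ r t v₀ u → (∀ s ∈ Icc 0 t, IsPer (u s)) →
        R < besovNorm χ q₁ (u t) := by
  have hq0 : 0 < q₀ := by linarith
  -- smallness of the data
  set η : ℝ≥0∞ := δ ^ q₀ / 2 with hη
  have hη0 : 0 < η := by
    rw [hη]
    exact ENNReal.div_pos (ENNReal.rpow_pos_of_nonneg hδ hq0.le).ne' (by norm_num)
  have hηη : η + η = δ ^ q₀ := ENNReal.add_halves _
  have h2top : (2 : ℝ≥0∞) ^ (q₀ - 1) ≠ ⊤ :=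
    (ENNReal.rpow_lt_top_of_nonneg (by linarith) (by norm_num)).ne
  obtain ⟨ε, hε0, hε⟩ : ∃ ε : ℝ, 0 < ε ∧
      (2 : ℝ≥0∞) ^ (q₀ - 1) * (4 * ENNReal.ofReal (2 * ε) ^ q₀) < η := by
    have h1 : Tendsto (fun ε : ℝ => (2 : ℝ≥0∞) ^ (q₀ - 1) * (4 * ENNReal.ofReal (2 * ε) ^ q₀))
        (𝓝[>] 0) (𝓝 0) := by
      have h2 : Continuous (fun ε : ℝ => (2 : ℝ≥0∞) ^ (q₀ - 1) *
          (4 * ENNReal.ofReal (2 * ε) ^ q₀)) := by
        apply (ENNReal.continuous_const_mul h2top).comp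
        apply (ENNReal.continuous_const_mul (by norm_num)).comp
        exact ENNReal.continuous_rpow_const.comp
          (ENNReal.continuous_ofReal.comp (by fun_prop))
      have h3 := h2.tendsto 0
      simp only [mul_zero, ENNReal.ofReal_zero, ENNReal.zero_rpow_of_pos hq0] at h3
      exact h3.mono_left nhdsWithin_le_nhds
    have h4 := (h1.eventually (gt_mem_nhds hη0)).and self_mem_nhdsWithin
    obtain ⟨ε, h5, h6⟩ := h4.exists
    exact ⟨ε, h6, h5⟩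
  -- number of frequencies
  have hc0 : ENNReal.ofReal (ε / 1000) ^ q₁ ≠ 0 := by
    have : 0 < ENNReal.ofReal (ε / 1000) := ENNReal.ofReal_pos.2 (by positivity)
    exact (ENNReal.rpow_pos_of_nonneg this hq₁.le).ne'
  obtain ⟨M, hM⟩ : ∃ M : ℕ, R ^ q₁ < (M : ℝ≥0∞) * ENNReal.ofReal (ε / 1000) ^ q₁ := by
    have hRq : R ^ q₁ < ⊤ := ENNReal.rpow_lt_top_of_nonneg hq₁.le hR.ne
    have h1 : R ^ q₁ / ENNReal.ofReal (ε / 1000) ^ q₁ < ⊤ := ENNReal.div_lt_top hRq.ne hc0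
    obtain ⟨M, hM⟩ := ENNReal.exists_nat_gt h1.ne
    refine ⟨M, ?_⟩
    rw [ENNReal.div_lt_iff (Or.inl hc0) (Or.inl (ENNReal.rpow_lt_top_of_nonneg hq₁.le
      ENNReal.ofReal_ne_top).ne)] at hM
    exact hM
  -- choice of the truncation
  obtain ⟨J, hJ1, hJ2⟩ : ∃ J : ℕ, (2 : ℝ≥0∞) ^ (q₀ - 1) * tailSum q₀ J < η ∧
      ∀ t ∈ F, 64 ^ M / t ≤ gN J 0 := by
    have h1 : Tendsto (fun J => (2 : ℝ≥0∞) ^ (q₀ - 1) * tailSum q₀ J) atTop (𝓝 0) := by
      have := ENNReal.Tendsto.const_mul (tendsto_tailSum hq₀) (Or.inr h2top)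
        (a := (2 : ℝ≥0∞) ^ (q₀ - 1))
      simpa using this
    have h2 := h1.eventually (gt_mem_nhds hη0)
    have h3 : ∀ᶠ J in atTop, ∀ t ∈ F, 64 ^ M / t ≤ gN J 0 := by
      rw [Filter.eventually_all_finset]
      exact fun t _ => tendsto_gN_zero.eventually_ge_atTop (64 ^ M / t)
    exact (h2.and h3).exists
  have hy : ∀ t ∈ F, ∀ i < M, ∃ y, t * gN J y = 64 ^ (i + 1) := by
    intro t ht i hi
    have ht0 := hF t ht
    have h1 : (64:ℝ) ^ (i + 1) ≤ 64 ^ M := pow_le_pow_right₀ (by norm_num) hi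
    obtain ⟨y, hy⟩ := exists_gN_eq J (w := 64 ^ (i + 1) / t) (by positivity)
      (le_trans (by gcongr) (hJ2 t ht))
    refine ⟨y, ?_⟩
    rw [hy]
    field_simp
  -- closeness
  have hclose : ∀ m, besovNorm χ q₀ (VJ d J ε m - UInf d) < δ := by
    intro m
    rw [← ENNReal.rpow_lt_rpow_iff hq0]
    calc besovNorm χ q₀ (VJ d J ε m - UInf d) ^ q₀
        ≤ (2 : ℝ≥0∞) ^ (q₀ - 1) * (4 * ENNReal.ofReal (2 * ε) ^ q₀ + tailSum q₀ J) :=
          besovNorm_VJ_sub hχ hq₀ J hε0.le m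
      _ = (2 : ℝ≥0∞) ^ (q₀ - 1) * (4 * ENNReal.ofReal (2 * ε) ^ q₀)
          + (2 : ℝ≥0∞) ^ (q₀ - 1) * tailSum q₀ J := mul_add _ _ _
      _ < η + η := ENNReal.add_lt_add hε hJ1
      _ = δ ^ q₀ := hηη
  have hev : ∀ᶠ m : ℕ in atTop, ∀ t ∈ F, ∀ r : ℝ, 0 < r → ∀ u : ℝ → E (d + 2) → E (d + 2),
      IsSolution χ r t (VJ d J ε m) u → (∀ s ∈ Icc 0 t, IsPer (u s)) →
      (M : ℝ≥0∞) * ENNReal.ofReal (ε / 1000) ^ q₁ ≤ besovNorm χ q₁ (u t) ^ q₁ := by
    rw [Filter.eventually_all_finset]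
    exact fun t ht => ev_large hχ hq₁ (hF t ht) hε0 J M (hy t ht)
  obtain ⟨m, hm⟩ := hev.exists
  refine ⟨VJ d J ε m, contDiff_VJ J ε m, isPer_VJ J ε m, fun q hq => memBesov_VJ hχ hq J hε0.le m,
    divFree_VJ J ε m, hclose m, fun t ht r hr u hu hper => ?_⟩
  rw [← ENNReal.rpow_lt_rpow_iff hq₁]
  exact hM.trans_le (hm t ht r hr u hu hper)

end Pool.Agent.Y304.EB
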