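import Pool.Agent.Y304.EB.Infl

/-!
Scaling of solutions of the Euler equations in time (helper304).
-/

set_option autoImplicit false

open Set Filter Topology MeasureTheory Real
open scoped ContDiff ENNReal RealInnerProductSpace

namespace Pool.Agent.Y304.EB

open Pool.Agent.Helper865.EulerBesov

variable {n : ℕ} {χ : E n → ℝ} {q : ℝ}

lemma lowpass_smul (a : ℝ) (u : E n → E n) (N : ℕ) (x : E n) :
    lowpass χ N (a • u) x = a • lowpass χ N u x := by
  unfold lowpass
  rw [← integral_smul]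
  congr 1
  ext1 y
  rw [Pi.smul_apply, smul_comm]

lemma block_smul (a : ℝ) (u : E n → E n) (j : ℕ) (x : E n) :
    block χ j (a • u) x = a • block χ j u x := by
  cases j with
  | zero => exact lowpass_smul a u 0 x
  | succ j => simp only [block, lowpass_smul, smul_sub]

lemma besovNorm_smul (hq : 0 < q) (a : ℝ) (u : E n → E n) :
    besovNorm χ q (a • u) = ‖a‖ₑ * besovNorm χ q u := by
  unfold besovNorm
  have h1 : ∀ j : ℕ, (ENNReal.ofReal ((2 : ℝ) ^ ((j : ℤ) - 1)) * ⨆ x, ‖block χ j (a • u) x‖ₑ) ^ q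
      = ‖a‖ₑ ^ q *
        (ENNReal.ofReal ((2 : ℝ) ^ ((j : ℤ) - 1)) * ⨆ x, ‖block χ j u x‖ₑ) ^ q := by
    intro j
    have h2 : (⨆ x, ‖block χ j (a • u) x‖ₑ) = ‖a‖ₑ * ⨆ x, ‖block χ j u x‖ₑ := by
      simp only [block_smul, enorm_smul]
      rw [ENNReal.mul_iSup]
    rw [h2, mul_left_comm, ENNReal.mul_rpow_of_nonneg _ _ hq.le]
  simp only [h1]
  rw [ENNReal.tsum_mul_left, ENNReal.mul_rpow_of_nonneg _ _ (by positivity),
    ← ENNReal.rpow_mul, mul_one_div_cancel hq.ne', ENNReal.rpow_one]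

lemma memBesov_smul (hq : 0 < q) {u : E n → E n} (h : MemBesov χ q u) (a : ℝ) :
    MemBesov χ q (a • u) where
  continuous := h.continuous.const_smul a
  bounded := by
    obtain ⟨C, hC⟩ := h.bounded
    refine ⟨|a| * C, fun x => ?_⟩
    rw [Pi.smul_apply, norm_smul, Real.norm_eq_abs]
    exact mul_le_mul_of_nonneg_left (hC x) (abs_nonneg a)
  norm_lt_top := by
    rw [besovNorm_smul hq]
    exact ENNReal.mul_lt_top enorm_lt_top h.norm_lt_top

lemma divFree_smul {u : E n → E n} (h : DivFree u) (a : ℝ) : DivFree (a • u) := by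
  intro ψ hψ hc
  have h1 := h ψ hψ hc
  have h2 : ∀ x, fderiv ℝ ψ x ((a • u) x) = a * fderiv ℝ ψ x (u x) := by
    intro x
    rw [Pi.smul_apply, map_smul, smul_eq_mul]
  simp only [h2]
  rw [integral_const_mul, h1, mul_zero]

lemma isPer_smul {u : E n → E n} (h : IsPer u) (a : ℝ) : IsPer (a • u) := by
  intro x i
  rw [Pi.smul_apply, Pi.smul_apply, h x i]

/-- If `u` is a solution then `a u(a t)` is one. -/
lemma sol_scale (hq : 0 < q) {T a : ℝ} (ha : 0 < a) {u₀ : E n → E n} {u : ℝ → E n → E n}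
    (h : IsSolution χ q T u₀ u) :
    IsSolution χ q (T / a) (a • u₀) (fun s => a • u (a * s)) where
  initial := by
    simp only [mul_zero, h.initial]
  mem := fun t ht => memBesov_smul hq (h.mem (a * t)
    ⟨mul_nonneg ha.le ht.1, by rw [mul_comm]; exact (le_div_iff₀ ha).1 ht.2⟩) a
  continuous := by
    intro t ht
    have hm : a * t ∈ Icc 0 T :=
      ⟨mul_nonneg ha.le ht.1, by rw [mul_comm]; exact (le_div_iff₀ ha).1 ht.2⟩
    have h1 := h.continuous (a * t) hm
    have h2 : Tendsto (fun s => a * s) (𝓝[Icc 0 (T / a)] t) (𝓝[Icc 0 T] (a * t)) := by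
      apply tendsto_nhdsWithin_iff.2
      refine ⟨((continuous_const_mul a).tendsto t).mono_left nhdsWithin_le_nhds, ?_⟩
      filter_upwards [self_mem_nhdsWithin] with s hs
      exact ⟨mul_nonneg ha.le hs.1, by rw [mul_comm]; exact (le_div_iff₀ ha).1 hs.2⟩
    have h3 := ENNReal.Tendsto.const_mul (h1.comp h2) (a := ‖a‖ₑ) (Or.inr enorm_ne_top)
    rw [mul_zero] at h3
    refine h3.congr fun s => ?_
    show ‖a‖ₑ * besovNorm χ q (u (a * s) - u (a * t)) = _
    rw [← besovNorm_smul hq, smul_sub]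
  divFree := fun t ht => divFree_smul (h.divFree (a * t)
    ⟨mul_nonneg ha.le ht.1, by rw [mul_comm]; exact (le_div_iff₀ ha).1 ht.2⟩) a
  momentum := by
    obtain ⟨p, hp1, hp2, hp3⟩ := h.momentum
    have hmm : ∀ t ∈ Icc 0 (T / a), a * t ∈ Icc 0 T := fun t ht =>
      ⟨mul_nonneg ha.le ht.1, by rw [mul_comm]; exact (le_div_iff₀ ha).1 ht.2⟩
    refine ⟨fun t x => a ^ 2 * p (a * t) x, ?_, ?_, ?_⟩
    · have h1 : ContinuousOn (fun z : ℝ × E n => (a * z.1, z.2)) (Icc 0 (T / a) ×ˢ univ) := by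
        fun_prop
      exact continuousOn_const.mul (hp1.comp h1 fun z hz => ⟨hmm _ hz.1, mem_univ _⟩)
    · intro ε hε
      obtain ⟨R, hR⟩ := hp2 (ε / a ^ 2) (by positivity)
      refine ⟨R, fun t ht x hx => ?_⟩
      have h1 := hR (a * t) (hmm t ht) x hx
      rw [abs_mul, abs_of_pos (by positivity : 0 < a ^ 2)]
      calc a ^ 2 * |p (a * t) x| ≤ a ^ 2 * (ε / a ^ 2 * ‖x‖) := by gcongr
        _ = ε * ‖x‖ := by field_simp
    · intro t ht φ hφ hc
      have h1 := hp3 (a * t) (hmm t ht) φ hφ hc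
      obtain ⟨G, hG⟩ : ∃ G : ℝ → ℝ, G = fun s =>
        ∫ x, (⟪u s x, fderiv ℝ φ x (u s x)⟫ + p s x * divergence φ x) := ⟨_, rfl⟩
      have e1 : (∫ x, ⟪(a • u (a * t)) x - (a • u (a * 0)) x, φ x⟫)
          = a * ∫ x, ⟪u (a * t) x - u 0 x, φ x⟫ := by
        rw [← integral_const_mul]
        congr 1
        ext1 x
        rw [mul_zero, Pi.smul_apply, Pi.smul_apply, ← smul_sub, real_inner_smul_left]
      have e2 : ∀ s : ℝ, (∫ x, (⟪(a • u (a * s)) x, fderiv ℝ φ x ((a • u (a * s)) x)⟫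
          + a ^ 2 * p (a * s) x * divergence φ x)) = a ^ 2 * G (a * s) := by
        intro s
        rw [hG]
        show _ = a ^ 2 * ∫ x, (⟪u (a * s) x, fderiv ℝ φ x (u (a * s) x)⟫
          + p (a * s) x * divergence φ x)
        rw [← integral_const_mul]
        congr 1
        ext1 x
        rw [Pi.smul_apply, map_smul, real_inner_smul_left, real_inner_smul_right]
        ring
      rw [e1, h1]
      simp only [e2]
      rw [intervalIntegral.integral_const_mul, intervalIntegral.integral_comp_mul_left G ha.ne',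
        mul_zero, hG, smul_eq_mul]
      field_simp

end Pool.Agent.Y304.EB
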